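import Pool.Agent.H41.AV.Defs

set_option autoImplicit false

/-!
# ASY
-/

namespace Pool.Agent.H246.AV

open Equiv Finset Pool.Agent.H41.AV

theorem asy (hg : S_GOOD) (hh : S_HALL) : S_ASY := by
  intro ε hε
  obtain ⟨η, B, n₁, hη, hB, hH⟩ := hh (min ε 1) (lt_min hε one_pos) (min_le_right _ _)
  obtain ⟨n₀, hG⟩ := hg (min ε 1) η B (lt_min hε one_pos) (min_le_right _ _) hη hB
  refine ⟨max n₀ n₁, ?_⟩
  intro G _ _ _ A hn hA
  have hA' : ∀ x, ((cells A x).card : ℝ) ≤ (1 - min ε 1) * Fintype.card G := by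
    intro x
    refine (hA x).trans ?_
    apply mul_le_mul_of_nonneg_right _ (Nat.cast_nonneg _)
    have := min_le_left ε 1
    linarith
  obtain ⟨ρ, τ, h1, h2, h3⟩ := hG G A ((le_max_left _ _).trans hn) hA'
  obtain ⟨F, hF⟩ := hH G A ρ τ ((le_max_right _ _).trans hn) hA' h1 h2 h3
  refine ⟨fun i j => F.symm (τ j - ρ i), ?_, ?_, ?_⟩
  · intro i j j' h
    have h' := F.symm.injective h
    exact τ.injective (sub_left_injective h')
  · intro j i i' h
    have h' := F.symm.injective h
    exact ρ.injective (sub_right_injective h')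
  · intro i j h
    have h4 := hF (F.symm (τ j - ρ i))
    unfold cnt at h4
    rw [Finset.card_eq_zero, Finset.filter_eq_empty_iff] at h4
    apply h4 (Finset.mem_univ i)
    rw [Equiv.apply_symm_apply]
    have e : ρ i + (τ j - ρ i) = τ j := by abel
    rw [e, Equiv.symm_apply_apply]
    exact h

end Pool.Agent.H246.AV
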