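import Pool.Agent.H41.AV.Defs

set_option autoImplicit false

/-!
# LIP: Lipschitz bound of the counts under a transposition
-/

namespace Pool.Agent.H246.AV

open Equiv Finset Pool.Agent.H41.AV

theorem sum_ite_le {G : Type} [Fintype G] [DecidableEq G] (o : Option G) :
    ∑ x : G, (if o = some x then (1 : ℝ) else 0) ≤ 1 := by
  cases o with
  | none => simp
  | some y => simp

theorem lip_gen {G : Type} [Fintype G] [DecidableEq G] (u v : G → Option G) (c d : G)
    (h : ∀ i, i ≠ c → i ≠ d → u i = v i) :
    ∑ x, |((univ.filter fun i => u i = some x).card : ℝ) -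
      ((univ.filter fun i => v i = some x).card : ℝ)| ≤ 4 := by
  have h1 : ∀ x, |((univ.filter fun i => u i = some x).card : ℝ) -
      ((univ.filter fun i => v i = some x).card : ℝ)| ≤
      ∑ i ∈ ({c, d} : Finset G), ((if u i = some x then (1 : ℝ) else 0) +
        (if v i = some x then (1 : ℝ) else 0)) := by
    intro x
    have e : ((univ.filter fun i => u i = some x).card : ℝ) -
        ((univ.filter fun i => v i = some x).card : ℝ) =
        ∑ i ∈ ({c, d} : Finset G), ((if u i = some x then (1 : ℝ) else 0) -
          (if v i = some x then (1 : ℝ) else 0)) := by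
      rw [Finset.card_filter, Finset.card_filter]
      push_cast
      rw [← Finset.sum_sub_distrib]
      symm
      apply Finset.sum_subset (Finset.subset_univ _)
      intro i _ hi
      simp only [Finset.mem_insert, Finset.mem_singleton, not_or] at hi
      rw [h i hi.1 hi.2, sub_self]
    rw [e]
    refine (Finset.abs_sum_le_sum_abs _ _).trans (Finset.sum_le_sum fun i _ => ?_)
    split_ifs <;> norm_num
  refine (Finset.sum_le_sum fun x _ => h1 x).trans ?_
  rw [Finset.sum_comm]
  have h2 : ∀ i ∈ ({c, d} : Finset G), ∑ x : G, ((if u i = some x then (1 : ℝ) else 0) +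
        (if v i = some x then (1 : ℝ) else 0)) ≤ 2 := by
    intro i _
    rw [Finset.sum_add_distrib]
    have := sum_ite_le (u i)
    have := sum_ite_le (v i)
    linarith
  refine (Finset.sum_le_sum h2).trans ?_
  rw [Finset.sum_const, nsmul_eq_mul]
  have h3 : ((({c, d} : Finset G).card : ℕ) : ℝ) ≤ 2 := by exact_mod_cast Finset.card_le_two
  linarith

theorem lip : S_LIP := by
  intro G _ _ _ A ρ τ y a b
  refine ⟨?_, ?_⟩
  · refine lip_gen (fun i => A i (τ.symm ((ρ * swap a b) i + y)))
      (fun i => A i (τ.symm (ρ i + y))) a b ?_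
    intro i ha hb
    show A i (τ.symm (ρ (swap a b i) + y)) = A i (τ.symm (ρ i + y))
    rw [swap_apply_of_ne_of_ne ha hb]
  · refine lip_gen (fun i => A i ((τ * swap a b).symm (ρ i + y)))
      (fun i => A i (τ.symm (ρ i + y))) (ρ.symm (τ a - y)) (ρ.symm (τ b - y)) ?_
    intro i ha hb
    have e : (τ * swap a b).symm (ρ i + y) = swap a b (τ.symm (ρ i + y)) := by
      rw [Equiv.symm_apply_eq]
      simp [Perm.mul_apply]
    have ha' : τ.symm (ρ i + y) ≠ a := by
      intro h
      apply ha
      rw [Equiv.symm_apply_eq] at h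
      rw [← h]
      simp
    have hb' : τ.symm (ρ i + y) ≠ b := by
      intro h
      apply hb
      rw [Equiv.symm_apply_eq] at h
      rw [← h]
      simp
    show A i ((τ * swap a b).symm (ρ i + y)) = A i (τ.symm (ρ i + y))
    rw [e, swap_apply_of_ne_of_ne ha' hb']

end Pool.Agent.H246.AV
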